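import Mathlib
import Pool.Agent.H60.Walk

namespace Pool.Agent.Results.MP_c389b3_nt.Counter

open Pool.Agent.H60.Walk

/-- For `T = {(2, 3), (8, 9)}` the pair `(8, 9)` has `γ = Γ_T ^ 2` and is slowest for infinitely
many `n`. -/
theorem result : ∃ (T : Set (ℕ × ℕ)) (Γ : ℝ) (P : ℕ × ℕ),
    (∀ Q ∈ T, 0 < Q.1 ∧ 0 < Q.2 ∧ Nat.Coprime Q.1 Q.2) ∧
    IsLeast {x | ∃ Q ∈ T, x = gam Q.1 Q.2} Γ ∧ P ∈ T ∧ Γ ^ 2 ≤ gam P.1 P.2 ∧
    {n : ℕ | 1 ≤ n ∧ P ∈ slowest T n}.Infinite := by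
  have g1 : gam 2 3 = 3 := by simpa using gam_eq 2 3 3 1 rfl rfl
  have g2 : gam 8 9 = 9 := by simpa using gam_eq 8 9 9 1 rfl rfl
  refine ⟨{(2, 3), (8, 9)}, 3, (8, 9), ?_, ⟨⟨(2, 3), by simp, g1.symm⟩, ?_⟩, by simp,
    by rw [g2]; norm_num, ?_⟩
  · rintro Q (rfl | rfl) <;> norm_num
  · rintro x ⟨Q, rfl | rfl, rfl⟩
    · exact g1.ge
    · rw [g2]; norm_num
  refine Set.infinite_of_forall_exists_gt fun j => ⟨w 8 9 1 1 (4 * j + 3 + 1), ⟨w_pos (by norm_num)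
    le_rfl le_rfl _, by simp, ?_⟩, ?_⟩
  swap
  · have := w_ge (α := 8) (β := 9) (by norm_num) (by norm_num) le_rfl le_rfl (4 * j + 3 + 1)
    omega
  have h1 := le_s (α := 8) (β := 9) (by norm_num) (by norm_num) le_rfl le_rfl (4 * j + 3 + 1)
  rintro Q (rfl | rfl)
  swap
  · exact le_rfl
  refine le_trans (s_le (by norm_num) fun a₁ a₂ h2 h3 h => ?_) h1
  replace h : w 2 3 a₁ a₂ (4 * j + 3 + 1 + 1) = w 8 9 1 1 (4 * j + 3 + 1) := h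
  rw [w_eq, w_eq] at h
  have c1 := g_closed 2 3 3 1 rfl rfl (4 * j + 3 + 1 + 1)
  have c2 := g_closed 2 3 3 1 rfl rfl (4 * j + 3 + 1)
  have c3 := g_closed 8 9 9 1 rfl rfl (4 * j + 3 + 1)
  have c4 := g_closed 8 9 9 1 rfl rfl (4 * j + 3)
  have e1 : (-1 : ℤ) ^ (4 * j + 3) = -1 := Odd.neg_one_pow ⟨2 * j + 1, by ring⟩
  have e2 : (9 : ℤ) ^ (4 * j + 3) = (3 ^ (4 * j + 3)) ^ 2 := by
    rw [← pow_mul, mul_comm (4 * j + 3) 2, pow_mul]; norm_num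
  have e3 : (3 : ℤ) ^ (4 * j + 3) % 5 = 2 := by
    have := ((show (3 : ℤ) ^ 4 ≡ 1 [ZMOD 5] by decide).pow j).mul_right (3 ^ 3)
    rw [← pow_mul, ← pow_add] at this
    simpa [Int.ModEq] using this
  have e4 : (27 : ℤ) ≤ 3 ^ (4 * j + 3) := by
    rw [pow_add]
    have : (1 : ℤ) ≤ 3 ^ (4 * j) := one_le_pow₀ (by norm_num)
    omega
  push_cast at c1 c2 c3 c4
  simp only [pow_succ _ (4 * j + 3 + 1), pow_succ _ (4 * j + 3), e1, e2] at c1 c2 c3 c4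
  generalize (3 : ℤ) ^ (4 * j + 3) = v at *
  zify at h h2 h3
  have key : 5 * ((a₂ : ℤ) - 3 * a₁) - 16 = 9 * (v * (4 * v - 5 * (a₁ + a₂))) := by
    linear_combination 20 * h - 5 * a₂ * c1 - 15 * a₁ * c2 + 2 * c3 + 18 * c4
  obtain ⟨c, hc⟩ : ∃ c, c = 4 * v - 5 * (a₁ + a₂) := ⟨_, rfl⟩
  rw [← hc] at key
  rcases lt_trichotomy c (-1) with h4 | h4 | h4
  · nlinarith
  · rw [h4] at key; omega
  · rcases eq_or_lt_of_le (show 0 ≤ c by omega) with h5 | h5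
    · rw [← h5] at key; omega
    · nlinarith

end Pool.Agent.Results.MP_c389b3_nt.Counter
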